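import Pool.Agent.helper5.IH.Spec

/-!
# ih:FCO — genus 0: the faces can be 2-coloured
-/

set_option autoImplicit false

namespace Pool.Agent.IH
open Finset CT SYM

theorem FCO_z2 (a : ZMod 2) : a + a = 0 := CharTwo.add_self_eq_zero a

theorem FCO_z2' {a b : ZMod 2} (h : a + b = 0) : a = b := by
  have h1 := FCO_z2 b
  have h2 : a + b + b = b := by rw [h, zero_add]
  rw [add_assoc, h1, add_zero] at h2
  exact h2

section
variable {V : Type} {G : SimpleGraph V}

/-- the face of a dart -/
def FCO_fc (ρ : G.Dart → G.Dart) (d : G.Dart) : Face ρ := Quot.mk _ d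

theorem FCO_fc_next (ρ : G.Dart → G.Dart) (d : G.Dart) : FCO_fc ρ (ρ d.symm) = FCO_fc ρ d := by
  have h : Quot.mk (fun d d' : G.Dart => d' = ρ d.symm) d =
      Quot.mk (fun d d' : G.Dart => d' = ρ d.symm) (ρ d.symm) := Quot.sound rfl
  exact h.symm

theorem FCO_fc_symm (ρ : G.Dart → G.Dart) (d : G.Dart) : FCO_fc ρ d.symm = FCO_fc ρ (ρ d) := by
  have h := FCO_fc_next ρ d.symm
  rw [SimpleGraph.Dart.symm_symm] at h
  exact h.symm

/-- the symmetric functions on darts -/
def FCO_E (G : SimpleGraph V) : Submodule (ZMod 2) (G.Dart → ZMod 2) where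
  carrier := {y | ∀ d, y d.symm = y d}
  add_mem' := by
    intro a b ha hb d
    change a d.symm + b d.symm = a d + b d
    rw [ha d, hb d]
  zero_mem' := fun _ => rfl
  smul_mem' := by
    intro r a ha d
    change r • a d.symm = r • a d
    rw [ha d]

theorem FCO_mem_E (y : G.Dart → ZMod 2) : y ∈ FCO_E G ↔ ∀ d, y d.symm = y d := Iff.rfl

/-- the boundary map of the faces -/
def FCO_A (ρ : G.Dart → G.Dart) : (Face ρ → ZMod 2) →ₗ[ZMod 2] FCO_E G where
  toFun x := ⟨fun d => x (FCO_fc ρ d) + x (FCO_fc ρ d.symm), fun d => by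
    change x (FCO_fc ρ d.symm) + x (FCO_fc ρ d.symm.symm) = x (FCO_fc ρ d) + x (FCO_fc ρ d.symm)
    rw [SimpleGraph.Dart.symm_symm, add_comm]⟩
  map_add' x y := by
    apply Subtype.ext
    funext d
    change (x _ + y _) + (x _ + y _) = (x _ + x _) + (y _ + y _)
    ring
  map_smul' r x := by
    apply Subtype.ext
    funext d
    change r * x _ + r * x _ = r * (x _ + x _)
    ring

theorem FCO_A_apply (ρ : G.Dart → G.Dart) (x : Face ρ → ZMod 2) (d : G.Dart) :
    (FCO_A ρ x : G.Dart → ZMod 2) d = x (FCO_fc ρ d) + x (FCO_fc ρ d.symm) := rfl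

variable [Fintype V] [DecidableEq V] [DecidableRel G.Adj]

/-- the sums at the vertices -/
def FCO_S (G : SimpleGraph V) [DecidableRel G.Adj] : FCO_E G →ₗ[ZMod 2] (V → ZMod 2) where
  toFun y v := ∑ d : G.Dart, if d.fst = v then (y : G.Dart → ZMod 2) d else 0
  map_add' y z := by
    funext v
    change ∑ d : G.Dart, (if d.fst = v then ((y : G.Dart → ZMod 2) d + (z : G.Dart → ZMod 2) d) else 0) =
      (∑ d : G.Dart, if d.fst = v then (y : G.Dart → ZMod 2) d else 0) +
        ∑ d : G.Dart, if d.fst = v then (z : G.Dart → ZMod 2) d else 0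
    rw [← Finset.sum_add_distrib]
    refine Finset.sum_congr rfl fun d _ => ?_
    split_ifs
    · rfl
    · rw [add_zero]
  map_smul' r y := by
    funext v
    change ∑ d : G.Dart, (if d.fst = v then (r * (y : G.Dart → ZMod 2) d) else 0) =
      r * ∑ d : G.Dart, if d.fst = v then (y : G.Dart → ZMod 2) d else 0
    rw [Finset.mul_sum]
    refine Finset.sum_congr rfl fun d _ => ?_
    split_ifs
    · rfl
    · rw [mul_zero]

theorem FCO_S_apply (y : FCO_E G) (v : V) :
    FCO_S G y v = ∑ d : G.Dart, if d.fst = v then (y : G.Dart → ZMod 2) d else 0 := rfl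

/-- a rotation is a permutation of the darts -/
def FCO_eq {ρ : G.Dart → G.Dart} (hρ : Rot ρ) : G.Dart ≃ G.Dart where
  toFun := ρ
  invFun d := ρ (ρ (ρ d))
  left_inv d := hρ.four d
  right_inv d := hρ.four d

theorem FCO_range_le {ρ : G.Dart → G.Dart} (hρ : Rot ρ) :
    LinearMap.range (FCO_A ρ) ≤ LinearMap.ker (FCO_S G) := by
  rintro _ ⟨x, rfl⟩
  rw [LinearMap.mem_ker]
  funext v
  rw [FCO_S_apply]
  have e1 : ∀ d : G.Dart, (if d.fst = v then (FCO_A ρ x : G.Dart → ZMod 2) d else 0) =
      (if d.fst = v then x (FCO_fc ρ d) else 0) + (if (ρ d).fst = v then x (FCO_fc ρ (ρ d)) else 0) := by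
    intro d
    rw [FCO_A_apply, FCO_fc_symm, hρ.fst]
    split_ifs
    · rfl
    · rw [add_zero]
  rw [Finset.sum_congr rfl fun d _ => e1 d, Finset.sum_add_distrib]
  have e2 : ∑ d : G.Dart, (if (ρ d).fst = v then x (FCO_fc ρ (ρ d)) else 0) =
      ∑ d : G.Dart, if d.fst = v then x (FCO_fc ρ d) else 0 :=
    Equiv.sum_comp (FCO_eq hρ) (fun d : G.Dart => if d.fst = v then x (FCO_fc ρ d) else 0)
  rw [e2]
  exact FCO_z2 _

theorem FCO_deg (hG : FourRegular G) (v : V) : (univ.filter fun d : G.Dart => d.fst = v).card = 4 := by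
  rw [SimpleGraph.dart_fst_fiber_card_eq_degree, ← hG v, Nat.card_eq_fintype_card,
    ← SimpleGraph.card_neighborSet_eq_degree]
  exact Fintype.card_congr (Equiv.refl _)

/-- the constant function 1 is in the kernel of the vertex sums -/
theorem FCO_one_ker (hG : FourRegular G) (h1 : (fun _ => 1 : G.Dart → ZMod 2) ∈ FCO_E G) :
    (⟨fun _ => 1, h1⟩ : FCO_E G) ∈ LinearMap.ker (FCO_S G) := by
  rw [LinearMap.mem_ker]
  funext v
  rw [FCO_S_apply]
  change ∑ d : G.Dart, (if d.fst = v then (1 : ZMod 2) else 0) = 0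
  rw [Finset.sum_boole, FCO_deg hG]
  rfl

/-- the darts at a vertex are an orbit -/
theorem FCO_orbit {ρ : G.Dart → G.Dart} (hρ : Rot ρ) (hG : FourRegular G) (d d' : G.Dart)
    (h : d'.fst = d.fst) : d' = d ∨ d' = ρ d ∨ d' = ρ (ρ d) ∨ d' = ρ (ρ (ρ d)) := by
  have hinj : Function.Injective ρ := (FCO_eq hρ).injective
  have n1 : ∀ d, ρ d ≠ d := by
    intro d h1
    apply hρ.two d
    rw [h1, h1]
  have n2 := hρ.two
  have n3 : ∀ d, ρ (ρ (ρ d)) ≠ d := by
    intro d h1
    have h2 := hρ.four d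
    rw [h1] at h2
    exact n1 d h2
  have hs : ({d, ρ d, ρ (ρ d), ρ (ρ (ρ d))} : Finset G.Dart) = univ.filter fun e : G.Dart => e.fst = d.fst := by
    apply Finset.eq_of_subset_of_card_le
    · intro e he
      simp only [mem_insert, mem_singleton] at he
      rw [mem_filter]
      refine ⟨mem_univ _, ?_⟩
      rcases he with rfl | rfl | rfl | rfl
      · rfl
      · exact hρ.fst _
      · rw [hρ.fst, hρ.fst]
      · rw [hρ.fst, hρ.fst, hρ.fst]
    · rw [FCO_deg hG]
      rw [Finset.card_insert_of_notMem, Finset.card_insert_of_notMem, Finset.card_insert_of_notMem,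
        Finset.card_singleton]
      · simp only [mem_singleton]
        exact fun h => n1 (ρ (ρ d)) h.symm
      · simp only [mem_insert, mem_singleton, not_or]
        exact ⟨fun h => n1 (ρ d) h.symm, fun h => n2 (ρ d) h.symm⟩
      · simp only [mem_insert, mem_singleton, not_or]
        exact ⟨fun h => n1 d h.symm, fun h => n2 d h.symm, fun h => n3 d h.symm⟩
  have hd : d' ∈ univ.filter fun e : G.Dart => e.fst = d.fst := by
    rw [mem_filter]
    exact ⟨mem_univ _, h⟩
  rw [← hs] at hd
  simpa only [mem_insert, mem_singleton] using hd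

theorem FCO_const {ρ : G.Dart → G.Dart} (hρ : Rot ρ) (hG : FourRegular G) (hc : G.Connected)
    (g : G.Dart → ZMod 2) (h1 : ∀ d, g d.symm = g d) (h2 : ∀ d, g (ρ d) = g d) :
    ∀ d d' : G.Dart, g d' = g d := by
  have h3 : ∀ d d' : G.Dart, d'.fst = d.fst → g d' = g d := by
    intro d d' h
    rcases FCO_orbit hρ hG d d' h with rfl | rfl | rfl | rfl
    · rfl
    · rw [h2]
    · rw [h2, h2]
    · rw [h2, h2, h2]
  have h4 : ∀ (u v : V) (p : G.Walk u v) (d d' : G.Dart), d.fst = u → d'.fst = v → g d' = g d := by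
    intro u v p
    induction p with
    | nil =>
      intro d d' hd hd'
      exact h3 d d' (hd'.trans hd.symm)
    | cons hadj p ih =>
      intro d d' hd hd'
      rename_i a b c
      have h5 := ih (SimpleGraph.Dart.mk (b, a) hadj.symm) d' rfl hd'
      rw [h5]
      have h6 := h1 (SimpleGraph.Dart.mk (a, b) hadj)
      have h7 : (SimpleGraph.Dart.mk (a, b) hadj).symm = SimpleGraph.Dart.mk (b, a) hadj.symm := rfl
      rw [h7] at h6
      rw [h6]
      exact h3 d _ hd.symm
  intro d d'
  obtain ⟨p⟩ := hc.preconnected d.fst d'.fst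
  exact h4 _ _ p d d' rfl rfl

theorem FCO_ker_le {ρ : G.Dart → G.Dart} (hρ : Rot ρ) (hG : FourRegular G) (hc : G.Connected)
    (d0 : G.Dart) : Module.finrank (ZMod 2) (LinearMap.ker (FCO_A ρ)) ≤ 1 := by
  have hone : (fun _ => 1 : Face ρ → ZMod 2) ∈ LinearMap.ker (FCO_A ρ) := by
    rw [LinearMap.mem_ker]
    apply Subtype.ext
    funext d
    rw [FCO_A_apply]
    exact FCO_z2 1
  refine finrank_le_one (⟨_, hone⟩ : LinearMap.ker (FCO_A ρ)) ?_
  rintro ⟨x, hx⟩
  rw [LinearMap.mem_ker] at hx
  have hx1 : ∀ d, x (FCO_fc ρ d.symm) = x (FCO_fc ρ d) := by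
    intro d
    have h := congrArg (fun y : FCO_E G => (y : G.Dart → ZMod 2) d) hx
    simp only [FCO_A_apply] at h
    exact (FCO_z2' h).symm
  have hx2 : ∀ d, x (FCO_fc ρ (ρ d)) = x (FCO_fc ρ d) := by
    intro d
    rw [← FCO_fc_symm]
    exact hx1 d
  have hcst := FCO_const hρ hG hc (fun d => x (FCO_fc ρ d)) hx1 hx2 d0
  refine ⟨x (FCO_fc ρ d0), ?_⟩
  apply Subtype.ext
  funext F
  change x (FCO_fc ρ d0) * 1 = x F
  rw [mul_one]
  obtain ⟨d, rfl⟩ := Quot.exists_rep F
  exact (hcst d).symm

theorem FCO_E_le : Module.finrank (ZMod 2) (FCO_E G) ≤ G.edgeFinset.card := by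
  have hrep : ∀ e : G.edgeSet, ∃ d : G.Dart, d.edge = e.1 := by
    rintro ⟨e, he⟩
    induction e with
    | _ a b => exact ⟨⟨(a, b), he⟩, rfl⟩
  choose rep hr using hrep
  let φ : FCO_E G →ₗ[ZMod 2] (G.edgeSet → ZMod 2) :=
    { toFun := fun y e => (y : G.Dart → ZMod 2) (rep e)
      map_add' := fun y z => rfl
      map_smul' := fun r y => rfl }
  have hφ : Function.Injective φ := by
    intro y z hyz
    apply Subtype.ext
    funext d
    have h1 : (y : G.Dart → ZMod 2) (rep ⟨d.edge, d.edge_mem⟩) = (z : G.Dart → ZMod 2) (rep ⟨d.edge, d.edge_mem⟩) :=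
      congrFun hyz ⟨d.edge, d.edge_mem⟩
    rcases (SimpleGraph.dart_edge_eq_iff _ _).1 (hr ⟨d.edge, d.edge_mem⟩) with h2 | h2
    · rwa [h2] at h1
    · rw [h2, (FCO_mem_E _).1 y.2, (FCO_mem_E _).1 z.2] at h1
      exact h1
  have h := LinearMap.finrank_le_finrank_of_injective hφ
  rw [Module.finrank_fintype_fun_eq_card] at h
  refine h.trans (le_of_eq ?_)
  rw [SimpleGraph.edgeFinset_card]

theorem FCO_rangeS (hc : G.Connected) :
    Fintype.card V ≤ Module.finrank (ZMod 2) (LinearMap.range (FCO_S G)) + 1 := by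
  obtain ⟨v0⟩ := hc.nonempty
  obtain ⟨T, hT⟩ : ∃ T, T = LinearMap.range (FCO_S G) ⊔ Submodule.span (ZMod 2) {(Pi.single v0 1 : V → ZMod 2)} :=
    ⟨_, rfl⟩
  have hedge : ∀ u w : V, G.Adj u w →
      (Pi.single u 1 + Pi.single w 1 : V → ZMod 2) ∈ LinearMap.range (FCO_S G) := by
    intro u w huw
    let d : G.Dart := ⟨(u, w), huw⟩
    have hy : (fun e => if e = d ∨ e = d.symm then 1 else 0 : G.Dart → ZMod 2) ∈ FCO_E G := by
      intro e
      change (if e.symm = d ∨ e.symm = d.symm then (1 : ZMod 2) else 0) = if e = d ∨ e = d.symm then 1 else 0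
      have h1 : (e.symm = d ∨ e.symm = d.symm) ↔ (e = d ∨ e = d.symm) := by
        constructor
        · rintro (h | h)
          · right
            rw [← h, SimpleGraph.Dart.symm_symm]
          · left
            exact SimpleGraph.Dart.symm_involutive.injective h
        · rintro (h | h)
          · right
            rw [h]
          · left
            rw [h, SimpleGraph.Dart.symm_symm]
      simp only [h1]
    refine ⟨⟨_, hy⟩, ?_⟩
    funext v
    rw [FCO_S_apply]
    change ∑ e : G.Dart, (if e.fst = v then (if e = d ∨ e = d.symm then (1 : ZMod 2) else 0) else 0) = _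
    have hds : d ≠ d.symm := (SimpleGraph.Dart.symm_ne d).symm
    have h2 : ∀ e : G.Dart, (if e.fst = v then (if e = d ∨ e = d.symm then (1 : ZMod 2) else 0) else 0) =
        (if e = d then (if u = v then 1 else 0) else 0) + (if e = d.symm then (if w = v then 1 else 0) else 0) := by
      intro e
      by_cases h3 : e = d
      · subst h3
        have h5 : (d : G.Dart).fst = u := rfl
        simp [hds, h5]
      · by_cases h4 : e = d.symm
        · subst h4
          have h5 : (d : G.Dart).snd = w := rfl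
          simp [hds.symm, h5]
        · simp [h3, h4]
    rw [Finset.sum_congr rfl fun e _ => h2 e, Finset.sum_add_distrib, Finset.sum_ite_eq' univ d,
      Finset.sum_ite_eq' univ d.symm]
    simp only [mem_univ, if_true, Pi.add_apply, Pi.single_apply]
    congr 1
    · by_cases h6 : u = v
      · simp [h6]
      · simp [h6, Ne.symm h6]
    · by_cases h6 : w = v
      · simp [h6]
      · simp [h6, Ne.symm h6]
  have hmem : ∀ v, (Pi.single v 1 : V → ZMod 2) ∈ T := by
    intro v
    obtain ⟨p⟩ := hc.preconnected v v0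
    induction p with
    | nil =>
      rw [hT]
      exact Submodule.mem_sup_right (Submodule.mem_span_singleton_self _)
    | cons hadj p ih =>
      rename_i a b c
      have h1 : (Pi.single a 1 + Pi.single b 1 : V → ZMod 2) ∈ T := by
        rw [hT]
        exact Submodule.mem_sup_left (hedge _ _ hadj)
      have h2 := T.sub_mem h1 (ih hT)
      rwa [add_sub_cancel_right] at h2
  have htop : T = ⊤ := by
    rw [Submodule.eq_top_iff']
    intro x
    have h1 : x = ∑ v, x v • (Pi.single v 1 : V → ZMod 2) := by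
      funext w
      simp [Finset.sum_apply, Pi.single_apply]
    rw [h1]
    exact Submodule.sum_mem _ fun v _ => T.smul_mem _ (hmem v)
  have h1 : Module.finrank (ZMod 2) T = Fintype.card V := by
    rw [htop, finrank_top, Module.finrank_fintype_fun_eq_card]
  have h2 : Module.finrank (ZMod 2) T ≤ Module.finrank (ZMod 2) (LinearMap.range (FCO_S G)) +
      Module.finrank (ZMod 2) (Submodule.span (ZMod 2) {(Pi.single v0 1 : V → ZMod 2)}) := by
    rw [hT]
    exact Submodule.finrank_add_le_finrank_add_finrank _ _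
  have h3 : Module.finrank (ZMod 2) (Submodule.span (ZMod 2) {(Pi.single v0 1 : V → ZMod 2)}) ≤ 1 := by
    have h4 := finrank_span_le_card (R := ZMod 2) ({(Pi.single v0 1 : V → ZMod 2)} : Set (V → ZMod 2))
    simpa using h4
  omega

theorem FCO_edges (hG : FourRegular G) : G.edgeFinset.card = 2 * Fintype.card V := by
  have h1 := SimpleGraph.sum_degrees_eq_twice_card_edges G
  have h2 : ∀ v, G.degree v = 4 := by
    intro v
    rw [← SimpleGraph.dart_fst_fiber_card_eq_degree]
    exact FCO_deg hG v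
  rw [Finset.sum_congr rfl fun v _ => h2 v, Finset.sum_const, smul_eq_mul, Finset.card_univ] at h1
  omega

end

theorem FCO : FCO_stmt := by
  intro V _ _ G ρ hG hc hρ hF
  classical
  have hfin : Finite (Face ρ) := by
    unfold Face
    infer_instance
  have : Fintype (Face ρ) := Fintype.ofFinite _
  obtain ⟨v0⟩ := hc.nonempty
  obtain ⟨d0⟩ : Nonempty G.Dart := by
    have h1 := FCO_deg hG v0
    have h2 : (univ.filter fun d : G.Dart => d.fst = v0).Nonempty := by
      rw [← Finset.card_pos, h1]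
      norm_num
    exact ⟨h2.choose⟩
  have hone : (fun _ => 1 : G.Dart → ZMod 2) ∈ FCO_E G := fun _ => rfl
  have r1 := LinearMap.finrank_range_add_finrank_ker (FCO_A ρ)
  rw [Module.finrank_fintype_fun_eq_card, ← Nat.card_eq_fintype_card, hF] at r1
  have r2 := FCO_ker_le hρ hG hc d0
  have r3 := LinearMap.finrank_range_add_finrank_ker (FCO_S G)
  have r4 := FCO_E_le (G := G)
  rw [FCO_edges hG] at r4
  have r5 := FCO_rangeS (G := G) hc
  have heq : LinearMap.range (FCO_A ρ) = LinearMap.ker (FCO_S G) :=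
    Submodule.eq_of_le_of_finrank_le (FCO_range_le hρ) (by omega)
  have hmem := FCO_one_ker hG hone
  rw [← heq] at hmem
  obtain ⟨x, hx⟩ := hmem
  have hx1 : ∀ d : G.Dart, x (FCO_fc ρ d) + x (FCO_fc ρ d.symm) = 1 := by
    intro d
    have h := congrArg (fun y : FCO_E G => (y : G.Dart → ZMod 2) d) hx
    exact h
  refine ⟨fun d => decide (x (FCO_fc ρ d) = 1), fun d => ?_, fun d h => ?_⟩
  · simp only [FCO_fc_next]
  · have h1 := hx1 d
    have h2 : (x (FCO_fc ρ d.symm) = 1) ↔ (x (FCO_fc ρ d) = 1) := by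
      simpa using h
    revert h1 h2
    generalize x (FCO_fc ρ d) = a
    generalize x (FCO_fc ρ d.symm) = b
    revert a b
    decide

end Pool.Agent.IH
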